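import Mathlib
import Pool.Agent.D0H38.TD.Stm5
set_option autoImplicit false
namespace Pool.Agent.D0H20.TE

open Finset in
theorem hall2 (q K d e : ℕ) (B : Finset (Fin K)) (X : Fin q → Finset (Fin K))
    (hB : q ≤ B.card) (hX : ∀ β, (X β).card ≤ e) (hd : ∀ b ∈ B, {β | b ∈ X β}.ncard ≤ d)
    (hde : d + e ≤ q) :
    ∃ σ : Fin q → Fin K, Function.Injective σ ∧ ∀ β, σ β ∈ B ∧ σ β ∉ X β := by
  classical
  have key : ∀ S : Finset (Fin q), S.card ≤ (S.biUnion (fun β => B \ X β)).card := by
    intro S
    have hSq : S.card ≤ q := by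
      simpa using Finset.card_le_univ S
    by_cases hS : S.card ≤ d
    · rcases S.eq_empty_or_nonempty with h | ⟨β, hβ⟩
      · simp [h]
      · have h1 : (B \ X β).card ≤ (S.biUnion (fun β => B \ X β)).card :=
          Finset.card_le_card (Finset.subset_biUnion_of_mem (fun β => B \ X β) hβ)
        have h2 : B.card - (X β).card ≤ (B \ X β).card := Finset.le_card_sdiff _ _
        have h3 := hX β
        omega
    · push Not at hS
      have h1 : B ⊆ S.biUnion (fun β => B \ X β) := by
        intro b hb
        by_contra hcon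
        have h2 : S ⊆ Finset.univ.filter (fun β => b ∈ X β) := by
          intro β hβ
          simp only [Finset.mem_filter, Finset.mem_univ, true_and]
          by_contra h3
          exact hcon (Finset.mem_biUnion.2 ⟨β, hβ, Finset.mem_sdiff.2 ⟨hb, h3⟩⟩)
        have h3 := Finset.card_le_card h2
        have h4 := hd b hb
        have h5 : {β | b ∈ X β}.ncard = (Finset.univ.filter (fun β => b ∈ X β)).card := by
          rw [← Set.ncard_coe_finset]
          congr 1
          ext β
          simp
        omega
      have h2 := Finset.card_le_card h1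
      omega
  obtain ⟨σ, hσ, hσ'⟩ := (Finset.all_card_le_biUnion_card_iff_exists_injective
    (fun β => B \ X β)).1 key
  exact ⟨σ, hσ, fun β => Finset.mem_sdiff.1 (hσ' β)⟩

theorem t_HALL2 : Pool.Agent.D0H38.TD.S_HALL2 := hall2

end Pool.Agent.D0H20.TE
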