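import Mathlib
import Pool.Agent.D0H38.TD.Stm5
set_option autoImplicit false
namespace Pool.Agent.D0H20.TE

theorem spc (V : Type) [Fintype V] [DecidableEq V] (c K : ℕ) (κ : V → Fin c) (A : Finset (Fin K))
    (X : Fin K → Finset V) (Y : Finset V) (hY : A.card * c ≤ Y.card) (hX : ∀ a, Y ⊆ X a) :
    ∃ (Sp : Finset V) (Z : Fin K → Finset V), Sp ⊆ Y ∧ (∀ u ∈ Sp, ∀ v ∈ Sp, κ u = κ v) ∧
      (∀ a ∈ A, Z a ⊆ X a ∧ Even (Z a).card ∧ X a \ Z a ⊆ Sp) ∧
      ∀ a ∈ A, ∀ b ∈ A, a ≠ b → Disjoint (X a \ Z a) (X b \ Z b) := by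
  classical
  by_cases hc : c = 0
  · subst hc
    have : IsEmpty V := ⟨fun v => (κ v).elim0⟩
    refine ⟨∅, X, by simp, by simp, fun a _ => ⟨subset_rfl, ?_, by simp⟩, fun a _ b _ _ => by simp⟩
    have : X a = ∅ := Finset.eq_empty_of_isEmpty _
    simp [this]
  have hne : (Finset.univ : Finset (Fin c)).Nonempty := ⟨⟨0, Nat.pos_of_ne_zero hc⟩, Finset.mem_univ _⟩
  obtain ⟨y, -, hy⟩ := Finset.exists_le_card_fiber_of_mul_le_card_of_maps_to
    (s := Y) (t := (Finset.univ : Finset (Fin c))) (f := κ) (n := A.card)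
    (fun _ _ => Finset.mem_univ _) hne (by simpa [mul_comm] using hY)
  set W := Y.filter (fun x => κ x = y) with hW
  have hcard : Fintype.card {x // x ∈ A} ≤ Fintype.card {x // x ∈ W} := by
    simpa using hy
  obtain ⟨σ⟩ := Function.Embedding.nonempty_of_card_le hcard
  have hσY : ∀ a : {x // x ∈ A}, (σ a).1 ∈ Y := fun a => (Finset.mem_filter.1 (σ a).2).1
  let Z : Fin K → Finset V := fun a =>
    if h : a ∈ A then (if Even (X a).card then X a else (X a).erase (σ ⟨a, h⟩).1) else X a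
  have hZ : ∀ a (h : a ∈ A), Z a ⊆ X a ∧ Even (Z a).card ∧ X a \ Z a ⊆ {(σ ⟨a, h⟩).1} := by
    intro a h
    by_cases he : Even (X a).card
    · have : Z a = X a := by simp [Z, he]
      rw [this]
      exact ⟨subset_rfl, he, by simp⟩
    · have : Z a = (X a).erase (σ ⟨a, h⟩).1 := by simp [Z, h, he]
      rw [this]
      refine ⟨Finset.erase_subset _ _, ?_, ?_⟩
      · have hm : (σ ⟨a, h⟩).1 ∈ X a := hX a (hσY _)
        rw [Finset.card_erase_of_mem hm]
        rw [Nat.not_even_iff_odd] at he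
        exact Nat.Odd.sub_odd he odd_one
      · intro x hx
        simp only [Finset.mem_sdiff, Finset.mem_erase, not_and] at hx
        simp only [Finset.mem_singleton]
        by_contra hne
        exact hx.2 hne hx.1
  refine ⟨W, Z, Finset.filter_subset _ _, ?_, ?_, ?_⟩
  · intro u hu v hv
    rw [(Finset.mem_filter.1 hu).2, (Finset.mem_filter.1 hv).2]
  · intro a ha
    refine ⟨(hZ a ha).1, (hZ a ha).2.1, (hZ a ha).2.2.trans ?_⟩
    intro x hx
    rw [Finset.mem_singleton] at hx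
    rw [hx]
    exact (σ ⟨a, ha⟩).2
  · intro a ha b hb hab
    rw [Finset.disjoint_left]
    intro x hx hx'
    have h1 := (hZ a ha).2.2 hx
    have h2 := (hZ b hb).2.2 hx'
    rw [Finset.mem_singleton] at h1 h2
    have h3 : σ ⟨a, ha⟩ = σ ⟨b, hb⟩ := Subtype.ext (h1.symm.trans h2)
    have h4 := σ.injective h3
    exact hab (by simpa using h4)

theorem t_SPC : Pool.Agent.D0H38.TD.S_SPC := spc

end Pool.Agent.D0H20.TE
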