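import Mathlib
import Pool.Agent.D0H38.TD.Stm5
set_option autoImplicit false
namespace Pool.Agent.D0H20.TE

theorem sumTE (V : Type) [Fintype V] [DecidableEq V] (G : SimpleGraph V) (U : Finset V) (K : ℕ)
    (F : V → Finset (Fin K))
    (hF : ∀ u, (F u).card ≤ 2) (hU : ∀ w, w ∉ U → {u | u ∈ U ∧ G.Adj u w}.ncard ≤ 2) :
    ∑ a, ∑ u ∈ U.filter (fun u => a ∈ F u), {w | w ∉ U ∧ G.Adj u w}.ncard ≤ 4 * Fintype.card V := by
  classical
  have e1 : ∑ a, ∑ u ∈ U.filter (fun u => a ∈ F u), {w | w ∉ U ∧ G.Adj u w}.ncard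
      = ∑ u ∈ U, (F u).card * {w | w ∉ U ∧ G.Adj u w}.ncard := by
    simp_rw [Finset.sum_filter]
    rw [Finset.sum_comm]
    refine Finset.sum_congr rfl fun u _ => ?_
    rw [← Finset.sum_filter, Finset.sum_const, smul_eq_mul]
    congr 1
    congr 1
    ext a
    simp
  have e2 : ∀ u, {w | w ∉ U ∧ G.Adj u w}.ncard = ∑ w ∈ Finset.univ \ U, if G.Adj u w then 1 else 0 := by
    intro u
    rw [Finset.sum_boole, Nat.cast_id, ← Set.ncard_coe_finset]
    congr 1
    ext w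
    simp
  have e3 : ∀ w, w ∉ U → ∑ u ∈ U, (if G.Adj u w then 1 else 0) ≤ 2 := by
    intro w hw
    have h1 := hU w hw
    rw [Finset.sum_boole, Nat.cast_id]
    have h2 : {u | u ∈ U ∧ G.Adj u w}.ncard = (U.filter (fun u => G.Adj u w)).card := by
      rw [← Set.ncard_coe_finset]
      congr 1
      ext u
      simp
    omega
  rw [e1]
  calc ∑ u ∈ U, (F u).card * {w | w ∉ U ∧ G.Adj u w}.ncard
      ≤ ∑ u ∈ U, 2 * {w | w ∉ U ∧ G.Adj u w}.ncard :=
        Finset.sum_le_sum fun u _ => Nat.mul_le_mul_right _ (hF u)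
    _ = 2 * ∑ u ∈ U, ∑ w ∈ Finset.univ \ U, (if G.Adj u w then 1 else 0) := by
        rw [Finset.mul_sum]
        exact Finset.sum_congr rfl fun u _ => by rw [e2]
    _ = 2 * ∑ w ∈ Finset.univ \ U, ∑ u ∈ U, (if G.Adj u w then 1 else 0) := by
        rw [Finset.sum_comm]
    _ ≤ 2 * ∑ w ∈ Finset.univ \ U, 2 := by
        refine Nat.mul_le_mul_left _ (Finset.sum_le_sum fun w hw => e3 w ?_)
        simpa using hw
    _ ≤ 4 * Fintype.card V := by
        rw [Finset.sum_const, smul_eq_mul]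
        have : (Finset.univ \ U : Finset V).card ≤ Fintype.card V := Finset.card_le_univ _
        omega

theorem t_SUM : Pool.Agent.D0H38.TD.S_SUM := sumTE

end Pool.Agent.D0H20.TE
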